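import Mathlib
import Pool.Agent.Helper84.NR.Prop
import Pool.Agent.Helper84.NR.Small

set_option autoImplicit false

open Matrix
open scoped ComplexOrder InnerProductSpace TensorProduct

namespace Pool.Agent.Results.MP_74fcff_an.IrreducibleMatrices

universe u

/-- The numerical range of a bounded operator. -/
def numRange {K : Type*} [NormedAddCommGroup K] [InnerProductSpace ℂ K] (T : K →L[ℂ] K) :
    Set ℂ :=
  {z | ∃ x : K, ‖x‖ = 1 ∧ inner ℂ x (T x) = z}

/-- The numerical range `{x* A x : x* x = 1}` of a square matrix. -/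
def matRange {n : ℕ} (A : Matrix (Fin n) (Fin n) ℂ) : Set ℂ :=
  {z | ∃ x : Fin n → ℂ, star x ⬝ᵥ x = 1 ∧ star x ⬝ᵥ (A *ᵥ x) = z}

/-- The matrix `A` as a linear map of `ℂ^n`. -/
noncomputable def matLin {n : ℕ} (A : Matrix (Fin n) (Fin n) ℂ) :
    EuclideanSpace ℂ (Fin n) →ₗ[ℂ] EuclideanSpace ℂ (Fin n) where
  toFun x := WithLp.toLp 2 (A *ᵥ x.ofLp)
  map_add' x y := by rw [WithLp.ofLp_add, Matrix.mulVec_add, WithLp.toLp_add]
  map_smul' c x := by rw [WithLp.ofLp_smul, Matrix.mulVec_smul, WithLp.toLp_smul]; rfl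

/-- The operator `I_H ⊗ A` on `H ⊗ ℂ^n`. -/
noncomputable def ampliation (H : Type u) [NormedAddCommGroup H] [InnerProductSpace ℂ H]
    {n : ℕ} (A : Matrix (Fin n) (Fin n) ℂ) :
    H ⊗[ℂ] EuclideanSpace ℂ (Fin n) →ₗ[ℂ] H ⊗[ℂ] EuclideanSpace ℂ (Fin n) :=
  LinearMap.lTensor H (matLin A)

/-- `T = X* (I_H ⊗ A) X` for a map `X : K → H ⊗ ℂ^n`. -/
def IsCompression {K H : Type u} [NormedAddCommGroup K] [InnerProductSpace ℂ K]
    [NormedAddCommGroup H] [InnerProductSpace ℂ H] {n : ℕ} (A : Matrix (Fin n) (Fin n) ℂ)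
    (T : K → K) (X : K → H ⊗[ℂ] EuclideanSpace ℂ (Fin n)) : Prop :=
  ∀ x y : K, inner ℂ (X y) (ampliation H A (X x)) = inner ℂ y (T x)

/-- There is a Hilbert space `H` and an isometry `X : K → H ⊗ ℂ^n` with `T = X* (I_H ⊗ A) X`. -/
def HasDilation {K : Type u} [NormedAddCommGroup K] [InnerProductSpace ℂ K]
    {n : ℕ} (A : Matrix (Fin n) (Fin n) ℂ) (T : K → K) : Prop :=
  ∃ (H : Type u) (_ : NormedAddCommGroup H) (_ : InnerProductSpace ℂ H)
    (_ : CompleteSpace H) (X : K →ₗᵢ[ℂ] H ⊗[ℂ] EuclideanSpace ℂ (Fin n)), IsCompression A T X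

/-- Property (D): every bounded operator `T` on a Hilbert space `K` with `W(T) ⊆ W(A)` is of the
form `X* (I_H ⊗ A) X` for a Hilbert space `H` and an isometry `X : K → H ⊗ ℂ^n`. -/
def PropertyD {n : ℕ} (A : Matrix (Fin n) (Fin n) ℂ) : Prop :=
  ∀ (K : Type u) [NormedAddCommGroup K] [InnerProductSpace ℂ K] [CompleteSpace K]
    (T : K →L[ℂ] K), numRange T ⊆ matRange A → HasDilation A T

/-- `x` is a unit vector maximising `Re (u ⟨A x, x⟩)`, and it is the only one up to a scalar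
factor: the largest eigenvalue of `Re (u A)` is simple, with eigenvector `x`. -/
structure SimpleTop {n : ℕ} (A : Matrix (Fin n) (Fin n) ℂ) (u : ℂ) (x : Fin n → ℂ) : Prop where
  unit : star x ⬝ᵥ x = 1
  top : ∀ y, star y ⬝ᵥ y = 1 → (u * (star y ⬝ᵥ (A *ᵥ y))).re ≤ (u * (star x ⬝ᵥ (A *ᵥ x))).re
  simple : ∀ y, star y ⬝ᵥ y = 1 →
    (u * (star y ⬝ᵥ (A *ᵥ y))).re = (u * (star x ⬝ᵥ (A *ᵥ x))).re → ∃ c : ℂ, y = c • x

/-- For at least one `u` on the unit circle, the largest eigenvalue of `Re (u A)` is simple. -/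
def SomewhereSimple {n : ℕ} (A : Matrix (Fin n) (Fin n) ℂ) : Prop :=
  ∃ (u : ℂ) (x : Fin n → ℂ), ‖u‖ = 1 ∧ SimpleTop A u x

/-- `Re (u B) = lam - g g*` for some complex number `u ≠ 0`, real `lam` and vector `g ≠ 0`. -/
def RankOneDefect {m : ℕ} (B : Matrix (Fin m) (Fin m) ℂ) : Prop :=
  ∃ (u : ℂ) (lam : ℝ) (g : Fin m → ℂ), u ≠ 0 ∧ g ≠ 0 ∧
    (u • B) + (u • B)ᴴ = (2 : ℂ) • ((lam : ℂ) • 1 - vecMulVec g (star g))

/-- Only the trivial orthogonal projections commute with `A`. -/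
def Irreducible {n : ℕ} (A : Matrix (Fin n) (Fin n) ℂ) : Prop :=
  ∀ P : Matrix (Fin n) (Fin n) ℂ, Pᴴ = P → P * P = P → A * P = P * A → P = 0 ∨ P = 1

theorem matRange_eq {n : ℕ} (A : Matrix (Fin n) (Fin n) ℂ) :
    matRange A = Pool.Agent.Helper774.MW A := rfl

theorem SimpleTop.good {n : ℕ} {A : Matrix (Fin n) (Fin n) ℂ} {u : ℂ} {x : Fin n → ℂ}
    (h : SimpleTop A u x) (hj : ¬ ∃ a a' : ℂ, A *ᵥ x = a • x ∧ Aᴴ *ᵥ x = a' • x) :
    Pool.Agent.Helper84.NR.Good A u (u * (star x ⬝ᵥ (A *ᵥ x))).re x where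
  unit := h.unit
  adm := by
    rintro z ⟨y, hy, rfl⟩
    exact h.top y hy
  eq := rfl
  simple := h.simple
  nonjoint := hj

theorem finPropD_of_property {n : ℕ} {A : Matrix (Fin n) (Fin n) ℂ} (hD : PropertyD.{u} A) :
    Pool.Agent.Helper774.FinPropD A := by
  intro k T hT
  apply Pool.Agent.Helper84.NR.finDil_of_property.{u} A _ T hT
  intro K _ _ _ T' hT'
  obtain ⟨H, i1, i2, i3, X, hX⟩ := hD K T' (by
    rintro z ⟨x, hx, rfl⟩
    rw [matRange_eq]
    exact hT' x hx)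
  exact ⟨H, i1, i2, i3, X, hX⟩

theorem property_of_finPropD {n : ℕ} {A : Matrix (Fin n) (Fin n) ℂ}
    (h : Pool.Agent.Helper774.FinPropD A) : PropertyD.{u} A := by
  intro K _ _ _ T hT
  obtain ⟨H, i1, i2, i3, X, hX⟩ := Pool.Agent.Helper774.exists_dilation A h T (by
    intro x hx
    rw [← matRange_eq]
    exact hT ⟨x, hx, rfl⟩)
  exact ⟨H, i1, i2, i3, X, hX⟩

theorem finPropD_rankOne {m : ℕ} (hm : 2 ≤ m) {B : Matrix (Fin m) (Fin m) ℂ}
    (h : RankOneDefect B) : Pool.Agent.Helper774.FinPropD B := by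
  obtain ⟨u, lam, g, hu, hg, hB⟩ := h
  intro k T hT
  exact Pool.Agent.Helper774.rankOne_FinDil B u hu lam g hg (by rw [Fintype.card_fin]; exact hm)
    hB T hT

theorem nonjoint_of_irreducible {n : ℕ} (hn : 2 ≤ n) {A : Matrix (Fin n) (Fin n) ℂ}
    (hA : Irreducible A) (x : Fin n → ℂ) (hx : star x ⬝ᵥ x = 1) :
    ¬ ∃ a a' : ℂ, A *ᵥ x = a • x ∧ Aᴴ *ᵥ x = a' • x := by
  rintro ⟨a, a', h1, h2⟩
  have h3 : (a' - starRingEnd ℂ a) = 0 := by
    have e1 : star x ⬝ᵥ (Aᴴ *ᵥ x) = a' := by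
      rw [h2, dotProduct_smul, hx, smul_eq_mul, mul_one]
    have e2 : star x ⬝ᵥ (Aᴴ *ᵥ x) = starRingEnd ℂ a := by
      rw [Matrix.dotProduct_mulVec, ← Matrix.star_mulVec, h1, star_smul, smul_dotProduct, hx,
        smul_eq_mul, mul_one, Complex.star_def]
    rw [← e1, e2, sub_self]
  have h4 : a' = starRingEnd ℂ a := sub_eq_zero.mp h3
  have e3 : A * vecMulVec x (star x) = a • vecMulVec x (star x) := by
    rw [Matrix.mul_vecMulVec, h1, Matrix.smul_vecMulVec]
  have e4 : vecMulVec x (star x) * A = a • vecMulVec x (star x) := by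
    have : star x ᵥ* A = a • star x := by
      have h5 := congrArg star h2
      rw [Matrix.star_mulVec, conjTranspose_conjTranspose, star_smul, h4, Complex.star_def,
        Complex.conj_conj] at h5
      exact h5
    rw [Matrix.vecMulVec_mul, this, Matrix.vecMulVec_smul]
  rcases hA (vecMulVec x (star x)) (by
      rw [conjTranspose_vecMulVec, star_star]) (by
      rw [Matrix.vecMulVec_mul_vecMulVec, hx, one_smul]) (by rw [e3, e4]) with h | h
  · have h5 : (vecMulVec x (star x)) *ᵥ x = 0 := by rw [h, Matrix.zero_mulVec]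
    rw [Matrix.vecMulVec_mulVec, hx] at h5
    simp at h5
    rw [h5] at hx
    simp at hx
  · -- the rank is one but the size is at least two
    have h5 := congrArg Matrix.rank h
    rw [Matrix.rank_one, Fintype.card_fin] at h5
    have h6 := Matrix.rank_vecMulVec_le x (star x)
    omega

theorem irreducible_case {n : ℕ} (hn : 2 ≤ n) (A : Matrix (Fin n) (Fin n) ℂ)
    (hirr : Irreducible A) (hA : n ≤ 4 ∨ SomewhereSimple A) :
    PropertyD.{u} A ↔ RankOneDefect A := by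
  constructor
  · intro hD
    apply Pool.Agent.Helper84.NR.irr_rankone (finPropD_of_property hD) hirr
    have hone : ∃ (u : ℂ) (t : ℝ) (x : Fin n → ℂ), ‖u‖ = 1 ∧
        Pool.Agent.Helper84.NR.Good A u t x := by
      rcases hA with h4 | ⟨u, x, hu, hx⟩
      · haveI : Nonempty (Fin n) := ⟨⟨0, by omega⟩⟩
        exact Pool.Agent.Helper84.NR.exists_simple_small (by rw [Fintype.card_fin]; exact h4)
          (nonjoint_of_irreducible hn hirr) hirr
      · exact ⟨u, _, x, hu, hx.good (nonjoint_of_irreducible hn hirr x hx.unit)⟩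
    obtain ⟨u, t, x, hu, hx⟩ := hone
    exact Pool.Agent.Helper84.NR.infinite_of_one (nonjoint_of_irreducible hn hirr) hu hx
  · intro h
    exact property_of_finPropD (finPropD_rankOne hn h)

/-- Classification of the irreducible matrices with property (D): every size up to four, and
every size as soon as the largest eigenvalue of `Re (u A)` is simple for at least one `u`. -/
theorem result (n : ℕ) (A : Matrix (Fin n) (Fin n) ℂ) (hn : 2 ≤ n) (hirr : Irreducible A)
    (hA : n ≤ 4 ∨ SomewhereSimple A) : PropertyD.{u} A ↔ RankOneDefect A :=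
  irreducible_case hn A hirr hA

end Pool.Agent.Results.MP_74fcff_an.IrreducibleMatrices
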