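import Mathlib
import Pool.Agent.Helper29X1.ND.Suff
import Pool.Agent.Helper29X1.ND.Core
import Pool.Agent.Helper29X1.ND.Wide6

open Matrix
open scoped ComplexOrder InnerProductSpace TensorProduct

/-!
Property (D) for matrices of every size (question Q2 of MP_74fcff_an).

Sufficiency, for every square matrix `A`: if `A` has a direct summand `B` with the same numerical
range such that in some direction `w` the largest eigenvalue of `Re (w B)` has multiplicity at
least `size B - 1`, then `A` has property (D). Necessity: the converse holds whenever some direct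
summand `C` of `A` (for instance `A` itself, or `A` with repeated summands removed) has `A` in its
matrix convex hull, the largest eigenvalue of `Re (w C)` is simple for a dense set of unimodular
`w`, and either `W(C)` is not the convex hull of `W(E)` and finitely many points for any `E` of
size at most two (`Wide`), or every corner of `W(C)` has a supporting direction in which that
eigenvalue is double (`SharpCorners`). No smoothness is assumed: polygons and mixed ranges are
covered. A unitarily irreducible matrix of size at least two has no corner at all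
(`noCorner_of_irreducible`).
-/

namespace Pool.Agent.Results.MP_74fcff_an.TightSummands

universe u

/-- The numerical range of a bounded operator. -/
def numRange {K : Type*} [NormedAddCommGroup K] [InnerProductSpace ℂ K] (T : K →L[ℂ] K) :
    Set ℂ :=
  {z | ∃ x : K, ‖x‖ = 1 ∧ inner ℂ x (T x) = z}

/-- The numerical range `{x* A x : x* x = 1}` of a square matrix. -/
def matRange {n : ℕ} (A : Matrix (Fin n) (Fin n) ℂ) : Set ℂ :=
  {z | ∃ x : Fin n → ℂ, star x ⬝ᵥ x = 1 ∧ star x ⬝ᵥ (A *ᵥ x) = z}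

/-- The matrix `A` as a linear map of `ℂ^n`. -/
noncomputable def matLin {n : ℕ} (A : Matrix (Fin n) (Fin n) ℂ) :
    EuclideanSpace ℂ (Fin n) →ₗ[ℂ] EuclideanSpace ℂ (Fin n) where
  toFun x := WithLp.toLp 2 (A *ᵥ x.ofLp)
  map_add' x y := by rw [WithLp.ofLp_add, Matrix.mulVec_add, WithLp.toLp_add]
  map_smul' c x := by rw [WithLp.ofLp_smul, Matrix.mulVec_smul, WithLp.toLp_smul]; rfl

/-- The operator `I_H ⊗ A` on `H ⊗ ℂ^n`. -/
noncomputable def ampliation (H : Type u) [NormedAddCommGroup H] [InnerProductSpace ℂ H]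
    {n : ℕ} (A : Matrix (Fin n) (Fin n) ℂ) :
    H ⊗[ℂ] EuclideanSpace ℂ (Fin n) →ₗ[ℂ] H ⊗[ℂ] EuclideanSpace ℂ (Fin n) :=
  LinearMap.lTensor H (matLin A)

/-- `T = X* (I_H ⊗ A) X` for a map `X : K → H ⊗ ℂ^n`. -/
def IsCompression {K H : Type u} [NormedAddCommGroup K] [InnerProductSpace ℂ K]
    [NormedAddCommGroup H] [InnerProductSpace ℂ H] {n : ℕ} (A : Matrix (Fin n) (Fin n) ℂ)
    (T : K → K) (X : K → H ⊗[ℂ] EuclideanSpace ℂ (Fin n)) : Prop :=
  ∀ x y : K, inner ℂ (X y) (ampliation H A (X x)) = inner ℂ y (T x)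

/-- There is a Hilbert space `H` and an isometry `X : K → H ⊗ ℂ^n` with `T = X* (I_H ⊗ A) X`. -/
def HasDilation {K : Type u} [NormedAddCommGroup K] [InnerProductSpace ℂ K]
    {n : ℕ} (A : Matrix (Fin n) (Fin n) ℂ) (T : K → K) : Prop :=
  ∃ (H : Type u) (_ : NormedAddCommGroup H) (_ : InnerProductSpace ℂ H)
    (_ : CompleteSpace H) (X : K →ₗᵢ[ℂ] H ⊗[ℂ] EuclideanSpace ℂ (Fin n)), IsCompression A T X

/-- Property (D): every bounded operator `T` on a Hilbert space `K` with `W(T) ⊆ W(A)` is of the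
form `X* (I_H ⊗ A) X` for a Hilbert space `H` and an isometry `X : K → H ⊗ ℂ^n`. -/
def PropertyD {n : ℕ} (A : Matrix (Fin n) (Fin n) ℂ) : Prop :=
  ∀ (K : Type u) [NormedAddCommGroup K] [InnerProductSpace ℂ K] [CompleteSpace K]
    (T : K →L[ℂ] K), numRange T ⊆ matRange A → HasDilation A T

/-- `lam - Re (w A)`, where `Re (w A) = (w A + (w A)*) / 2`. -/
noncomputable def gap {n : ℕ} (A : Matrix (Fin n) (Fin n) ℂ) (w : ℂ) (lam : ℝ) :
    Matrix (Fin n) (Fin n) ℂ :=
  (lam : ℂ) • (1 : Matrix (Fin n) (Fin n) ℂ) - (1 / 2 : ℂ) • (w • A + (w • A)ᴴ)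

/-- The largest eigenvalue of `Re (w A)` is simple: for some real `lam` the matrix
`lam - Re (w A)` is positive semidefinite with a one-dimensional kernel. -/
def SimpleTop {n : ℕ} (A : Matrix (Fin n) (Fin n) ℂ) (w : ℂ) : Prop :=
  ∃ lam : ℝ, (gap A w lam).PosSemidef ∧ (gap A w lam).rank + 1 = n

/-- The largest eigenvalue of `Re (w A)` is simple for a dense set of unimodular `w`. -/
def SimpleTops {n : ℕ} (A : Matrix (Fin n) (Fin n) ℂ) : Prop :=
  ∀ w₀ : ℂ, ‖w₀‖ = 1 → w₀ ∈ closure {w : ℂ | ‖w‖ = 1 ∧ SimpleTop A w}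

/-- For some unimodular `w` the matrix `Re (w A)` is `lam - P` with `lam` real and `P` positive
semidefinite of rank at most one: its largest eigenvalue has multiplicity at least `n - 1`. -/
def NearlyScalarPart {n : ℕ} (A : Matrix (Fin n) (Fin n) ℂ) : Prop :=
  ∃ w : ℂ, ‖w‖ = 1 ∧ ∃ lam : ℝ, (gap A w lam).PosSemidef ∧ (gap A w lam).rank ≤ 1

/-- `w` is the direction of an outer normal of `W(A)` at `p` (up to conjugation): the real
functional `q ↦ Re (w q)` attains its maximum over `W(A)` at `p`. -/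
def Supports {n : ℕ} (A : Matrix (Fin n) (Fin n) ℂ) (w p : ℂ) : Prop :=
  ∀ q ∈ matRange A, (w * q).re ≤ (w * p).re

/-- Every corner `p` of `W(A)` (a point with two different unit outer normals) has a supporting
direction `v` in which the largest eigenvalue of `Re (v A)` has multiplicity exactly two. -/
def SharpCorners {n : ℕ} (A : Matrix (Fin n) (Fin n) ℂ) : Prop :=
  ∀ p ∈ matRange A, ∀ w w' : ℂ, ‖w‖ = 1 → ‖w'‖ = 1 → w ≠ w' → Supports A w p →
    Supports A w' p → ∃ v : ℂ, ‖v‖ = 1 ∧ Supports A v p ∧ (gap A v (v * p).re).rank + 2 = n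

/-- `W(A)` is not the closed convex hull of the numerical range of a matrix `E` of size at most
two (empty, a point, a segment or an elliptical disc) and finitely many points. -/
def Wide {n : ℕ} (A : Matrix (Fin n) (Fin n) ℂ) : Prop :=
  ∀ (k : ℕ) (E : Matrix (Fin k) (Fin k) ℂ) (F : Set ℂ), k ≤ 2 → F.Finite →
    matRange A ≠ closedConvexHull ℝ (matRange E ∪ F)

/-- `B` is a direct summand of `A`: there is an isometry `V` that intertwines `B` with `A` and
`B*` with `A*`, so that `B` is the restriction of `A` to the reducing subspace `V ℂ^m`. -/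
def IsSummand {m n : ℕ} (B : Matrix (Fin m) (Fin m) ℂ) (A : Matrix (Fin n) (Fin n) ℂ) : Prop :=
  ∃ V : Matrix (Fin n) (Fin m) ℂ, Vᴴ * V = 1 ∧ A * V = V * B ∧ Aᴴ * V = V * Bᴴ

/-- `C` is a direct summand of `A` and `A = ∑ R_p* C R_p` with `∑ R_p* R_p = 1`, that is, `A`
lies in the matrix convex hull of `C`. -/
def IsCore {m n : ℕ} (C : Matrix (Fin m) (Fin m) ℂ) (A : Matrix (Fin n) (Fin n) ℂ) : Prop :=
  IsSummand C A ∧ ∃ (N : ℕ) (R : Fin N → Matrix (Fin m) (Fin n) ℂ),
    ∑ p, (R p)ᴴ * R p = 1 ∧ ∑ p, (R p)ᴴ * C * R p = A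

/-- `A` is unitarily irreducible: only `0` and the whole space reduce `A`. -/
def Irreducible {n : ℕ} (A : Matrix (Fin n) (Fin n) ℂ) : Prop :=
  ∀ L : Submodule ℂ (Fin n → ℂ), (∀ x ∈ L, A *ᵥ x ∈ L ∧ Aᴴ *ᵥ x ∈ L) → L = ⊥ ∨ L = ⊤

/-- `A` has a direct summand with the same numerical range and a nearly scalar real part in
some direction. -/
def HasTightSummand {n : ℕ} (A : Matrix (Fin n) (Fin n) ℂ) : Prop :=
  ∃ (m : ℕ) (B : Matrix (Fin m) (Fin m) ℂ),
    IsSummand B A ∧ matRange B = matRange A ∧ NearlyScalarPart B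

theorem matRange_eq {n : ℕ} (A : Matrix (Fin n) (Fin n) ℂ) :
    matRange A = Pool.Agent.Helper774.MW A := rfl

theorem gap_eq {n : ℕ} (A : Matrix (Fin n) (Fin n) ℂ) (w : ℂ) (lam : ℝ) :
    gap A w lam = (lam : ℂ) • (1 : Matrix (Fin n) (Fin n) ℂ) - Pool.Agent.Helper774.Hu A w := rfl

theorem propertyD_iff {n : ℕ} (A : Matrix (Fin n) (Fin n) ℂ) :
    PropertyD.{u} A ↔ Pool.Agent.Helper774.FinPropD A := by
  constructor
  · intro hD m T hT
    apply Pool.Agent.Helper29X1.ND.finDil_of_dilations.{u} A _ T hT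
    intro K _ _ _ T' hT'
    obtain ⟨H, i1, i2, i3, X, hX⟩ := hD K T' (by
      rintro z ⟨x, hx, rfl⟩
      rw [matRange_eq]
      exact hT' x hx)
    exact ⟨H, i1, i2, i3, X, hX⟩
  · intro h K _ _ _ T hT
    obtain ⟨H, i1, i2, i3, X, hX⟩ := Pool.Agent.Helper774.exists_dilation A h T (by
      intro x hx
      rw [← matRange_eq]
      exact hT ⟨x, hx, rfl⟩)
    exact ⟨H, i1, i2, i3, X, hX⟩

theorem nonempty_of_simpleTops {n : ℕ} {A : Matrix (Fin n) (Fin n) ℂ} (h : SimpleTops A) :
    Nonempty (Fin n) := by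
  obtain ⟨w, _, lam, _, hr⟩ := closure_nonempty_iff.mp ⟨1, h 1 (by simp)⟩
  exact ⟨⟨0, by omega⟩⟩

theorem supports_iff {n : ℕ} {A : Matrix (Fin n) (Fin n) ℂ} [Nonempty (Fin n)] (w p : ℂ)
    (hp : p ∈ matRange A) : Supports A w p ↔ (w * p).re = Pool.Agent.Helper29X1.ND.supp A w := by
  constructor
  · intro h
    exact le_antisymm (Pool.Agent.Helper29X1.ND.le_supp A w p hp)
      (Pool.Agent.Helper29X1.ND.supp_le A w _ h)
  · intro h q hq
    rw [h]
    exact Pool.Agent.Helper29X1.ND.le_supp A w q hq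

theorem cornerOK_of_sharpCorners {n : ℕ} {A : Matrix (Fin n) (Fin n) ℂ} [Nonempty (Fin n)]
    (h : SharpCorners A) : Pool.Agent.Helper29X1.ND.CornerOK A := by
  apply Pool.Agent.Helper29X1.ND.cornerOK_of_double
  intro p hp w w' hw hw' hne hs hs'
  obtain ⟨v, hv, hvs, hr⟩ := h p hp w w' hw hw' hne ((supports_iff w p hp).mpr hs)
    ((supports_iff w' p hp).mpr hs')
  have hvp := (supports_iff v p hp).mp hvs
  refine ⟨v, hv, hvp, ?_⟩
  rw [gap_eq, hvp] at hr
  exact hr

theorem isSummand_trans {k m n : ℕ} {C : Matrix (Fin k) (Fin k) ℂ}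
    {B : Matrix (Fin m) (Fin m) ℂ} {A : Matrix (Fin n) (Fin n) ℂ} (h1 : IsSummand C B)
    (h2 : IsSummand B A) : IsSummand C A := by
  obtain ⟨V, hV, a1, a2⟩ := h1
  obtain ⟨W, hW, b1, b2⟩ := h2
  refine ⟨W * V, ?_, ?_, ?_⟩
  · rw [conjTranspose_mul, Matrix.mul_assoc, ← Matrix.mul_assoc Wᴴ, hW, Matrix.one_mul, hV]
  · rw [← Matrix.mul_assoc, b1, Matrix.mul_assoc, a1, ← Matrix.mul_assoc]
  · rw [← Matrix.mul_assoc, b2, Matrix.mul_assoc, a2, ← Matrix.mul_assoc]

theorem matRange_of_isSummand {m n : ℕ} {B : Matrix (Fin m) (Fin m) ℂ}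
    {A : Matrix (Fin n) (Fin n) ℂ} (h : IsSummand B A) : matRange B ⊆ matRange A := by
  obtain ⟨V, hV, hAV, -⟩ := h
  have hB : Vᴴ * A * V = B := by
    rw [Matrix.mul_assoc, hAV, ← Matrix.mul_assoc, hV, Matrix.one_mul]
  rw [← hB]
  exact Pool.Agent.Helper774.MW_compress_subset A V hV

theorem isCore_self {n : ℕ} (A : Matrix (Fin n) (Fin n) ℂ) : IsCore A A :=
  ⟨⟨1, by simp, by simp, by simp⟩, 1, fun _ => 1, by simp, by simp⟩

theorem sufficiency {n : ℕ} (A : Matrix (Fin n) (Fin n) ℂ) (h : HasTightSummand A) :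
    PropertyD.{u} A := by
  obtain ⟨m, B, ⟨V, hV, hAV, -⟩, hR, w, hw, lam, hP, hr⟩ := h
  have hB : Vᴴ * A * V = B := by
    rw [Matrix.mul_assoc, hAV, ← Matrix.mul_assoc, hV, Matrix.one_mul]
  subst hB
  rw [propertyD_iff]
  apply Pool.Agent.Helper774.FinPropD.transfer V hV
  · rw [← matRange_eq, ← matRange_eq, hR]
  · exact Pool.Agent.Helper29X1.ND.finPropD_of_gap _ w hw lam hP hr

theorem necessity_self {n : ℕ} (A : Matrix (Fin n) (Fin n) ℂ) (hT : SimpleTops A)
    (hS : SharpCorners A ∨ Wide A) (hD : Pool.Agent.Helper774.FinPropD A) :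
    HasTightSummand A := by
  have hne := nonempty_of_simpleTops hT
  have hgen : ∀ w0 : ℂ, ‖w0‖ = 1 → ∀ ε : ℝ, 0 < ε →
      ∃ w : ℂ, ‖w‖ = 1 ∧ ‖w - w0‖ < ε ∧ ∃ x, Pool.Agent.Helper29X1.ND.STop A w x := by
    intro w0 hw0 ε hε
    obtain ⟨w, ⟨hw, lam, hP, hr⟩, hd⟩ := Metric.mem_closure_iff.mp (hT w0 hw0) ε hε
    refine ⟨w, hw, ?_, Pool.Agent.Helper29X1.ND.stop_of_gap A w lam hP hr⟩
    rw [← dist_eq_norm, dist_comm]
    exact hd
  rcases hS with hS | hS
  · obtain ⟨k, V, hV, hAV, hAV', hR, w, hw, lam, hP, hr⟩ :=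
      Pool.Agent.Helper29X1.ND.forward3 A hD hgen (cornerOK_of_sharpCorners hS)
    exact ⟨k, Vᴴ * A * V, ⟨V, hV, hAV, hAV'⟩, hR, w, hw, lam, hP, hr⟩
  · obtain ⟨j, E, F, hj, hF, hEF⟩ := Pool.Agent.Helper29X1.ND.hull_narrow A hgen
    have hdim : 3 ≤ Module.finrank ℂ
        (Submodule.span ℂ (Pool.Agent.Helper29X1.ND.RegSet A)) := by
      by_contra hcon
      exact hS j E F (by omega) hF hEF
    obtain ⟨k, V, hV, hAV, hAV', hR, w, hw, lam, hP, hr⟩ :=
      Pool.Agent.Helper29X1.ND.forward_wide A hD hgen hdim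
    exact ⟨k, Vᴴ * A * V, ⟨V, hV, hAV, hAV'⟩, hR, w, hw, lam, hP, hr⟩

theorem necessity {n m : ℕ} (A : Matrix (Fin n) (Fin n) ℂ) (C : Matrix (Fin m) (Fin m) ℂ)
    (hC : IsCore C A) (hT : SimpleTops C) (hS : SharpCorners C ∨ Wide C)
    (hD : PropertyD.{u} A) : HasTightSummand A := by
  obtain ⟨hsum, N, R, hR1, hR2⟩ := hC
  have hne := nonempty_of_simpleTops hT
  have hdil : Pool.Agent.Helper774.FinDil C A := Pool.Agent.Helper29X1.ND.finDil_of_mat R hR1 hR2
  have hsub := matRange_of_isSummand hsum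
  rw [propertyD_iff] at hD
  obtain ⟨k, B, hB, hBr, hBn⟩ := necessity_self C hT hS
    (Pool.Agent.Helper29X1.ND.finPropD_core hsub hdil hD)
  refine ⟨k, B, isSummand_trans hB hsum, ?_, hBn⟩
  rw [hBr]
  exact Set.Subset.antisymm hsub (Pool.Agent.Helper29X1.ND.MW_subset_of_finDil hdil)

/-- `W(A)` of a unitarily irreducible matrix of size at least two has no corner. -/
theorem noCorner_of_irreducible {n : ℕ} (A : Matrix (Fin n) (Fin n) ℂ) (hn : 2 ≤ n)
    (hA : Irreducible A) (p : ℂ) (hp : p ∈ matRange A) (w w' : ℂ) (hw : ‖w‖ = 1)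
    (hw' : ‖w'‖ = 1) (hs : Supports A w p) (hs' : Supports A w' p) : w = w' := by
  have hne : Nonempty (Fin n) := ⟨⟨0, by omega⟩⟩
  have hsmo : Pool.Agent.Helper29X1.ND.Smo A := by
    apply Pool.Agent.Helper29X1.ND.smo_of_no_common
    intro x hx a a' h1 h2
    rcases hA (Submodule.span ℂ {x}) (by
      intro y hy
      obtain ⟨c, rfl⟩ := Submodule.mem_span_singleton.mp hy
      constructor
      · rw [Matrix.mulVec_smul, h1, smul_smul]
        exact Submodule.smul_mem _ _ (Submodule.mem_span_singleton_self x)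
      · rw [Matrix.mulVec_smul, h2, smul_smul]
        exact Submodule.smul_mem _ _ (Submodule.mem_span_singleton_self x)) with h | h
    · exact hx (Submodule.span_singleton_eq_bot.mp h)
    · have h3 := finrank_span_singleton (K := ℂ) hx
      rw [h, finrank_top, Module.finrank_fin_fun] at h3
      omega
  exact hsmo p hp w w' hw hw' ((supports_iff w p hp).mp hs) ((supports_iff w' p hp).mp hs')

/-- **Sufficiency** (every matrix `A`): if a direct summand `B` of `A` has `W(B) = W(A)` and the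
largest eigenvalue of `Re (w B)` has multiplicity at least `size B - 1` for some `w`, then `A` has
property (D). **Necessity**: conversely, suppose that `A` has property (D) and a core `C` (a
direct summand with `A` in its matrix convex hull, such as `A` itself) for which the largest
eigenvalue of `Re (w C)` is simple for a dense set of `w`. Suppose also that `W(C)` is not the
convex hull of `W(E)` with `E` of size at most two and finitely many points, or else that the
largest eigenvalue is double for some supporting direction of every corner of `W(C)`. Then `A` has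
such a direct summand `B`. -/
theorem result :
    (∀ (n : ℕ) (A : Matrix (Fin n) (Fin n) ℂ), HasTightSummand A → PropertyD.{u} A) ∧
    (∀ (n : ℕ) (A : Matrix (Fin n) (Fin n) ℂ) (m : ℕ) (C : Matrix (Fin m) (Fin m) ℂ),
      IsCore C A → SimpleTops C → (SharpCorners C ∨ Wide C) → PropertyD.{u} A →
        HasTightSummand A) :=
  ⟨fun _ A h => sufficiency A h, fun _ A _ C hC hT hS hD => necessity A C hC hT hS hD⟩

end Pool.Agent.Results.MP_74fcff_an.TightSummands
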